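import Pool.Agent.Helper29.TC.Stmts

set_option autoImplicit false

open Filter Topology

namespace Pool.Agent.Helper29.TC

theorem st_GD (hLIM : ST_LIM) (hT3 : ST_T3) (hT4 : ST_T4) (hTST : ST_TST) (hW2 : ST_W2)
    (hGRO : ST_GRO) (hSMP : ST_SMP) : ST_GD := by
  intro s a hs ha j N
  obtain ⟨S2, S3, S4, Sst, c2, _, _, _⟩ := hSMP
  obtain ⟨κ, hκ⟩ : ∃ κ : ℕ, κ = j + 2 := ⟨_, rfl⟩
  obtain ⟨K, hK⟩ : ∃ K : ℕ, K = κ ^ s := ⟨_, rfl⟩
  obtain ⟨M, hM⟩ : ∃ M : ℕ, M = κ ^ (3 * s - 3) := ⟨_, rfl⟩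
  have hK1 : 1 ≤ K := by rw [hK]; exact Nat.one_le_pow _ _ (by omega)
  have hM1 : 1 ≤ M := by rw [hM]; exact Nat.one_le_pow _ _ (by omega)
  have hKr : (1 : ℝ) ≤ K := by exact_mod_cast hK1
  have hK0 : (0 : ℝ) < K := by linarith
  have hp0 : 0 < pp K κ M := by unfold pp; positivity
  have hp1 : pp K κ M ≤ 1 := by
    unfold pp
    apply pow_le_one₀ (by positivity)
    rw [div_le_one (by positivity)]
    have : (κ : ℝ) / (K : ℝ) ^ 2 ≤ κ := div_le_self (by positivity) (one_le_pow₀ hKr)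
    linarith
  have key : ∀ (α : Type) [Fintype α] [DecidableEq α] (E : Finset (α × α)), Smp E →
      ∀ δ : ℝ, 0 < δ → ∀ᶠ D in atTop, |sp E (GG K κ M D) (pp K κ M) - TT E K κ M| < δ := by
    intro α _ _ E hE δ hδ
    have h := hLIM α K κ M E hE hK1 hM1
    exact Metric.tendsto_nhds.mp h δ hδ
  have e2 := key (Fin 2) E2 S2 (1 / ((j : ℝ) + 1)) (by positivity)
  have e4 := key (Fin 4) E4 S4 (1 / ((j : ℝ) + 1)) (by positivity)
  have e3 := key (Fin 3) E3 S3 (1 / 4) (by norm_num)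
  have est : ∀ᶠ D in atTop, ∀ t ∈ Finset.range (j + 1),
      |sp (Est s t) (GG K κ M D) (pp K κ M) - TT (Est s t) K κ M| < 1 := by
    rw [Filter.eventually_all_finset]
    intro t _
    exact key _ _ (Sst s t) 1 one_pos
  have en : Tendsto (fun D => nn K κ M D) atTop atTop := by
    refine tendsto_atTop_mono (fun D => ?_) tendsto_id
    show D ≤ (K * (D * (κ + 1) ^ D)) ^ M
    have h1 : D ≤ K * (D * (κ + 1) ^ D) := by
      calc D = 1 * (D * 1) := by ring
        _ ≤ K * (D * (κ + 1) ^ D) :=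
          Nat.mul_le_mul hK1 (Nat.mul_le_mul_left _ (Nat.one_le_pow _ _ (by omega)))
    exact h1.trans (Nat.le_self_pow (by omega) _)
  have eg := ((hGRO s a (pp K κ M) (by omega) ha hp0).comp en).eventually_ge_atTop (j : ℝ)
  have eN := en.eventually_ge_atTop N
  obtain ⟨D, h2, h4, h3, hst, hg, hN⟩ := (e2.and (e4.and (e3.and (est.and (eg.and eN))))).exists
  refine ⟨nn K κ M D, hN, pp K κ M, GG K κ M D, ?_⟩
  unfold Good
  refine ⟨hp0, hp1, hg, ?_, ?_, ?_, ?_⟩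
  · have t2 : TT E2 K κ M = 1 := by
      unfold TT
      rw [c2, pow_one, hW2 K κ hK1, div_self (by positivity), one_pow]
    rw [t2] at h2
    exact h2.le
  · obtain ⟨h5, h6⟩ := hT4 s κ hs (by omega)
    rw [← hK, ← hM] at h5 h6
    have hκr : (κ : ℝ) = (j : ℝ) + 2 := by rw [hκ]; push_cast; ring
    rw [hκr] at h6
    rw [abs_lt] at h4
    rw [abs_le]
    constructor <;> linarith [h4.1, h4.2]
  · intro t ht1 htj
    have h5 := hTST s t κ hs ht1 (by omega)
    rw [← hK, ← hM] at h5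
    have h6 := hst t (Finset.mem_range.mpr (by omega))
    rw [abs_lt] at h6
    linarith [h6.2]
  · have h5 := hT3 s κ hs (by omega)
    rw [← hK, ← hM] at h5
    rw [abs_lt] at h3
    linarith [h3.1]

end Pool.Agent.Helper29.TC
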